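import Pool.Agent.Helper64.RN.Goals

/-!
# Project RN (MP_d01c92_ag), packet DN (levels below)
-/

set_option autoImplicit false

open scoped BigOperators

universe u

namespace Pool.Agent.Helper41.RN.DN

open Pool.Agent.Helper64.IG Pool.Agent.Helper64.RN Finset

lemma inc_inc {n p m q m' q' : ℕ} (h1 : n ≤ m) (h2 : p ≤ q) (h3 : m ≤ m') (h4 : q ≤ q')
    (e : Ix n p) : inc h3 h4 (inc h1 h2 e) = inc (h1.trans h3) (h2.trans h4) e := by
  rcases e with e | e <;> rfl

lemma inc_self {n p : ℕ} (h1 : n ≤ n) (h2 : p ≤ p) (e : Ix n p) : inc h1 h2 e = e := by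
  rcases e with e | e <;> rfl

lemma up_m {K : Type u} [Field K] (x : Pt K) (n p k : ℕ) (a : Fin p → Ix n p) :
    x.x n p a = x.x (n + k) p (inc (Nat.le_add_right n k) le_rfl ∘ a) := by
  induction k with
  | zero =>
    congr 1
    funext i
    exact (inc_self _ _ _).symm
  | succ k ih =>
    rw [ih, ← x.xi_eq (n + k) p]
    show x.x (n + k + 1) p _ = x.x (n + k + 1) p _
    congr 1
    funext i
    exact inc_inc _ _ _ _ _

lemma up_r (p m r : ℕ) : ∃ eq : Fin (p + r) ≃ Fin p ⊕ Fin r,
    ∀ (K : Type u) [Field K] (x : Pt K) (b : Fin p → Ix m p),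
      x.x m p b = x.x m (p + r) (Sum.elim (inc le_rfl (Nat.le_add_right p r) ∘ b)
        (fun i : Fin r => (Sum.inr (Fin.natAdd p i) : Ix m (p + r))) ∘ eq) := by
  induction r with
  | zero =>
    refine ⟨(Equiv.sumEmpty (Fin p) (Fin 0)).symm, fun K _ x b => ?_⟩
    show x.x m p b = x.x m p _
    congr 1
    funext i
    exact (inc_self _ _ _).symm
  | succ r ih =>
    obtain ⟨eq, heq⟩ := ih
    let f : Fin (p + (r + 1)) → Fin p ⊕ Fin (r + 1) := fun j =>
      Fin.cases (motive := fun _ : Fin (p + r + 1) => Fin p ⊕ Fin (r + 1)) (Sum.inr (Fin.last r))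
        (fun i => Sum.map id Fin.castSucc (eq i)) j
    have hf0 : f (0 : Fin (p + r + 1)) = Sum.inr (Fin.last r) := rfl
    have hfs : ∀ i : Fin (p + r), f (i.succ : Fin (p + r + 1)) = Sum.map id Fin.castSucc (eq i) :=
      fun i => rfl
    have hmi : Function.Injective (Sum.map id Fin.castSucc : Fin p ⊕ Fin r → Fin p ⊕ Fin (r + 1)) :=
      Sum.map_injective.mpr ⟨Function.injective_id, Fin.castSucc_injective r⟩
    have hne : ∀ i : Fin (p + r), Sum.map id Fin.castSucc (eq i) ≠
        (Sum.inr (Fin.last r) : Fin p ⊕ Fin (r + 1)) := by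
      intro i h
      cases hq : eq i with
      | inl k => rw [hq] at h; cases h
      | inr k =>
        rw [hq] at h
        have h2 := Sum.inr_injective h
        exact Fin.castSucc_ne_last k h2
    have hinj : Function.Injective f := by
      intro (i : Fin (p + r + 1)) (j : Fin (p + r + 1))
      refine Fin.cases ?_ (fun i => ?_) i <;> refine Fin.cases ?_ (fun j => ?_) j
      · exact fun _ => rfl
      · intro h
        exact absurd h.symm (hne j)
      · intro h
        exact absurd h (hne i)
      · intro h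
        have h2 : i = j := eq.injective (hmi h)
        rw [h2]
    have hbij : Function.Bijective f :=
      (Fintype.bijective_iff_injective_and_card f).mpr ⟨hinj, by simp⟩
    refine ⟨Equiv.ofBijective f hbij, fun K _ x b => ?_⟩
    rw [heq K x b, ← x.theta_eq m (p + r)]
    show x.x m (p + r + 1) _ = x.x m (p + r + 1) _
    congr 1
    funext (j : Fin (p + r + 1))
    refine Fin.cases ?_ (fun i => ?_) j
    · rfl
    · rw [Fin.cons_succ]
      show inc le_rfl (Nat.le_succ (p + r)) (Sum.elim (inc le_rfl (Nat.le_add_right p r) ∘ b)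
        (fun i : Fin r => (Sum.inr (Fin.natAdd p i) : Ix m (p + r))) (eq i)) =
        Sum.elim (inc le_rfl (Nat.le_add_right p (r + 1)) ∘ b)
        (fun i : Fin (r + 1) => (Sum.inr (Fin.natAdd p i) : Ix m (p + (r + 1))))
          (Sum.map id Fin.castSucc (eq i))
      cases eq i with
      | inl k => exact inc_inc _ _ _ _ _
      | inr k => rfl

/-- **DN.** -/
theorem t : Pool.Agent.Helper64.RN.S_DN.{u} := by
  intro n p m r hn
  obtain ⟨k, rfl⟩ := Nat.exists_eq_add_of_le hn
  obtain ⟨eq, heq⟩ := up_r.{u} p (n + k) r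
  refine ⟨eq, fun K _ x a => ?_⟩
  rw [up_m x n p k a, heq K x]
  congr 2
  funext j
  cases j with
  | inl i => exact inc_inc _ _ _ _ _
  | inr i => rfl

end Pool.Agent.Helper41.RN.DN
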