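import Pool.Agent.Helper64.RN.Goals

/-!
# Project RN (MP_d01c92_ag), packet PT (points)
-/

set_option autoImplicit false

open scoped BigOperators

universe u

namespace Pool.Agent.Helper41.RN.PT

open Pool.Agent.Helper64.IG Pool.Agent.Helper64.RN Finset

/-- the index in `ℕ ⊕ ℕ` -/
def nx {n p : ℕ} (e : Ix n p) : ℕ ⊕ ℕ := Sum.map Fin.val Fin.val e

lemma nx_inc {n p m q : ℕ} (hn : n ≤ m) (hp : p ≤ q) (e : Ix n p) : nx (inc hn hp e) = nx e := by
  rcases e with e | e <;> rfl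

lemma nx_inj {n p : ℕ} : Function.Injective (nx : Ix n p → ℕ ⊕ ℕ) :=
  Sum.map_injective.mpr ⟨Fin.val_injective, Fin.val_injective⟩

section

variable {K : Type u} [Field K] (z : ℕ ⊕ ℕ → K)

open Classical in
/-- one factor -/
noncomputable def T1 (i : ℕ) (e : ℕ ⊕ ℕ) : K :=
  if Sum.inr i = e then 1 else (z e - z (Sum.inr i))⁻¹

/-- `t_p e` -/
noncomputable def TT (p : ℕ) (e : ℕ ⊕ ℕ) : K := ∏ i ∈ range p, T1 z i e

/-- `c_p` -/
noncomputable def CC (p : ℕ) : K :=
  ∏ i ∈ range p, ∏ j ∈ range i, (z (Sum.inr i) - z (Sum.inr j))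

/-- the form -/
noncomputable def om (n p : ℕ) : Form K n p := fun a =>
  CC z p * ((∏ j, TT z p (nx (a j))) * (Matrix.vandermonde fun j => z (nx (a j))).det)

lemma det_eq {n p : ℕ} (a : Fin p → Ix n p) :
    (∏ j, TT z p (nx (a j))) * (Matrix.vandermonde fun j => z (nx (a j))).det =
      Matrix.det (fun i j : Fin p => TT z p (nx (a j)) * z (nx (a j)) ^ (i : ℕ)) := by
  rw [← Matrix.det_transpose (Matrix.vandermonde fun j => z (nx (a j))), ← Matrix.det_mul_row]
  congr 1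

variable {z}

lemma T1_mul (hz : Function.Injective z) {p : ℕ} {e : ℕ ⊕ ℕ} (h : e ≠ Sum.inr p) :
    T1 z p e * (z e - z (Sum.inr p)) = 1 := by
  unfold T1
  rw [if_neg (fun h2 => h h2.symm)]
  exact inv_mul_cancel₀ (sub_ne_zero.mpr fun h2 => h (hz h2))

lemma T1_ne (hz : Function.Injective z) (p : ℕ) (e : ℕ ⊕ ℕ) : T1 z p e ≠ 0 := by
  unfold T1
  split_ifs with h
  · exact one_ne_zero
  · exact inv_ne_zero (sub_ne_zero.mpr fun h2 => h (hz h2).symm)

lemma TT_ne (hz : Function.Injective z) (p : ℕ) (e : ℕ ⊕ ℕ) : TT z p e ≠ 0 :=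
  prod_ne_zero_iff.mpr fun i _ => T1_ne hz i e

lemma CC_ne (hz : Function.Injective z) (p : ℕ) : CC z p ≠ 0 := by
  refine prod_ne_zero_iff.mpr fun i _ => prod_ne_zero_iff.mpr fun j hj => ?_
  refine sub_ne_zero.mpr fun h => ?_
  have h1 := Sum.inr_injective (hz h)
  have h2 := mem_range.mp hj
  omega

lemma CC_TT (hz : Function.Injective z) (p : ℕ) :
    CC z (p + 1) * TT z (p + 1) (Sum.inr p) = CC z p := by
  unfold CC TT
  rw [prod_range_succ, prod_range_succ (fun i => T1 z i (Sum.inr p))]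
  have h1 : T1 z p (Sum.inr p) = 1 := by
    unfold T1
    rw [if_pos rfl]
  rw [h1, mul_one, mul_assoc]
  have h2 : (∏ j ∈ range p, (z (Sum.inr p) - z (Sum.inr j))) *
      ∏ i ∈ range p, T1 z i (Sum.inr p) = 1 := by
    rw [← prod_mul_distrib]
    refine prod_eq_one fun i hi => ?_
    rw [mul_comm]
    apply T1_mul hz
    intro h
    have h3 := Sum.inr_injective h
    have h4 := mem_range.mp hi
    omega
  rw [h2, mul_one]

lemma TT_succ (hz : Function.Injective z) {p : ℕ} {e : ℕ ⊕ ℕ} (h : e ≠ Sum.inr p) :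
    TT z (p + 1) e * (z e - z (Sum.inr p)) = TT z p e := by
  unfold TT
  rw [prod_range_succ, mul_assoc, T1_mul hz h, mul_one]

lemma det_cons {p : ℕ} (e : K) (w : Fin p → K) :
    (Matrix.vandermonde (Fin.cons e w : Fin (p + 1) → K)).det =
      (∏ j, (w j - e)) * (Matrix.vandermonde w).det := by
  rw [Matrix.det_vandermonde, Matrix.det_vandermonde, Fin.prod_univ_succ, Fin.prod_Ioi_zero]
  congr 1
  refine prod_congr rfl fun i _ => ?_
  rw [Fin.prod_Ioi_succ]
  rfl

lemma nx_ne {n p : ℕ} (e : Ix n p) : nx e ≠ Sum.inr p := by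
  rcases e with e | e
  · exact fun h => by cases h
  · intro h
    have h1 := Sum.inr_injective h
    have h2 := e.2
    omega

lemma theta_om (hz : Function.Injective z) (n p : ℕ) : theta (om z n (p + 1)) = om z n p := by
  funext a
  show CC z (p + 1) * ((∏ j, TT z (p + 1) (nx ((Fin.cons (Sum.inr (Fin.last p))
    (inc le_rfl (Nat.le_succ p) ∘ a) : Fin (p + 1) → Ix n (p + 1)) j))) *
      (Matrix.vandermonde fun j => z (nx ((Fin.cons (Sum.inr (Fin.last p))
        (inc le_rfl (Nat.le_succ p) ∘ a) : Fin (p + 1) → Ix n (p + 1)) j))).det) =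
    CC z p * ((∏ j, TT z p (nx (a j))) * (Matrix.vandermonde fun j => z (nx (a j))).det)
  have e1 : (fun j => z (nx ((Fin.cons (Sum.inr (Fin.last p))
        (inc le_rfl (Nat.le_succ p) ∘ a) : Fin (p + 1) → Ix n (p + 1)) j))) =
      (Fin.cons (z (Sum.inr p)) (fun j => z (nx (a j))) : Fin (p + 1) → K) := by
    funext j
    refine Fin.cases ?_ (fun i => ?_) j
    · rfl
    · rw [Fin.cons_succ, Fin.cons_succ, Function.comp_apply, nx_inc]
  rw [e1, det_cons, Fin.prod_univ_succ, Fin.cons_zero]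
  have e2 : ∀ i : Fin p, TT z (p + 1) (nx ((Fin.cons (Sum.inr (Fin.last p))
        (inc le_rfl (Nat.le_succ p) ∘ a) : Fin (p + 1) → Ix n (p + 1)) i.succ)) =
      TT z (p + 1) (nx (a i)) := by
    intro i
    rw [Fin.cons_succ, Function.comp_apply, nx_inc]
  rw [prod_congr rfl fun i _ => e2 i]
  have e3 : nx (Sum.inr (Fin.last p) : Ix n (p + 1)) = Sum.inr p := rfl
  rw [e3]
  have e4 : (∏ j, TT z (p + 1) (nx (a j))) * ∏ j, (z (nx (a j)) - z (Sum.inr p)) =
      ∏ j, TT z p (nx (a j)) := by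
    rw [← prod_mul_distrib]
    exact prod_congr rfl fun i _ => TT_succ hz (nx_ne (a i))
  rw [← CC_TT hz p, ← e4]
  ring

lemma xi_om (n p : ℕ) : xi (om z (n + 1) p) = om z n p := by
  funext a
  show CC z p * ((∏ j, TT z p (nx (inc (Nat.le_succ n) le_rfl (a j)))) *
    (Matrix.vandermonde fun j => z (nx (inc (Nat.le_succ n) le_rfl (a j)))).det) = _
  simp only [nx_inc]
  rfl

end

/-- **PT.** -/
theorem t : Pool.Agent.Helper64.RN.S_PT.{u} := by
  intro K _ z hz
  refine ⟨⟨om z, ?_, xi_om, theta_om hz⟩, fun n p => ⟨?_, ?_⟩⟩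
  · intro n p
    refine ⟨CC z p, fun i e => TT z p (nx e) * z (nx e) ^ (i : ℕ), fun a => ?_⟩
    show CC z p * _ = _
    rw [det_eq]
  · refine ⟨CC z p, fun e => TT z p (nx e), fun e => z (nx e), fun a => ?_⟩
    show CC z p * _ = _
    rw [det_eq]
  · intro a ha
    refine mul_ne_zero (CC_ne hz p) (mul_ne_zero (prod_ne_zero_iff.mpr fun i _ => TT_ne hz p _) ?_)
    rw [Matrix.det_vandermonde_ne_zero_iff]
    intro i j hij
    exact ha (nx_inj (hz hij))

end Pool.Agent.Helper41.RN.PT
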